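import Mathlib

/-!
# Sums with central binomial coefficients and Fibonacci and Lucas numbers modulo `p ^ 2`

The four congruences hold for every prime `p ≠ 2, 5`. The proof uses the two finite expansions of the Chebyshev
polynomials

  `∑_k (-1)^k (C(n+k+1, 2k+1) + C(n+k, 2k+1)) t^(2k)` and `∑_k (-1)^k (C(n+k, 2k) + C(n+k-1, 2k)) x^k`,

which for `t^2 = t + 1`, `x = t^2` are periodic in `n` (period `10`), and whose coefficients are, for `n = (p-1)/2` and
`n = p`, congruent to those of the sums.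
-/

set_option autoImplicit false
set_option linter.all false

namespace Pool.Agent.Results.MP_0a65fc_nt.FourCongruences

open Finset

/-- The Lucas numbers `2, 1, 3, 4, 7, ..`. -/
def luc : ℕ → ℕ
  | 0 => 2
  | 1 => 1
  | n + 2 => luc n + luc (n + 1)

/-- `a ≡ b` modulo `p ^ 2` for rational numbers: `a - b = p ^ 2 c`, the denominator of `c` prime to `p`. -/
def Cong (p : ℕ) (a b : ℚ) : Prop := ∃ c : ℚ, ¬ p ∣ c.den ∧ a - b = (p : ℚ) ^ 2 * c

/-! ### The expansions -/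

/-- `∑_k (-1)^k C(n+k, 2k) x^k`. -/
def sE {R : Type*} [CommRing R] (x : R) (n : ℕ) : R :=
  ∑ k ∈ range (n + 1), (-1) ^ k * ((n + k).choose (2 * k) : R) * x ^ k

/-- `∑_k (-1)^k C(n+k+1, 2k+1) x^k`. -/
def sO {R : Type*} [CommRing R] (x : R) (n : ℕ) : R :=
  ∑ k ∈ range (n + 1), (-1) ^ k * ((n + k + 1).choose (2 * k + 1) : R) * x ^ k

section exp

variable {R : Type*} [CommRing R] (x : R)

theorem sE_eq (n N : ℕ) (h : n < N) :
    sE x n = ∑ k ∈ range N, (-1) ^ k * ((n + k).choose (2 * k) : R) * x ^ k := by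
  refine sum_subset (range_mono (by omega)) fun k _ hk => ?_
  rw [mem_range, not_lt] at hk
  rw [Nat.choose_eq_zero_of_lt (by omega), Nat.cast_zero, mul_zero, zero_mul]

theorem sO_eq (n N : ℕ) (h : n < N) :
    sO x n = ∑ k ∈ range N, (-1) ^ k * ((n + k + 1).choose (2 * k + 1) : R) * x ^ k := by
  refine sum_subset (range_mono (by omega)) fun k _ hk => ?_
  rw [mem_range, not_lt] at hk
  rw [Nat.choose_eq_zero_of_lt (by omega), Nat.cast_zero, mul_zero, zero_mul]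

theorem sE_succ (n : ℕ) : sE x (n + 1) = sE x n - x * sO x n := by
  rw [sE_eq x (n + 1) (n + 2) (by omega), sE_eq x n (n + 2) (by omega), sO, mul_sum,
    sum_range_succ', sum_range_succ' (n := n + 1)]
  have h : ∀ k, (-1 : R) ^ (k + 1) * ((n + 1 + (k + 1)).choose (2 * (k + 1)) : R) * x ^ (k + 1) =
      (-1) ^ (k + 1) * ((n + (k + 1)).choose (2 * (k + 1)) : R) * x ^ (k + 1) -
        x * ((-1) ^ k * ((n + k + 1).choose (2 * k + 1) : R) * x ^ k) := by
    intro k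
    rw [show n + 1 + (k + 1) = (n + k + 1) + 1 by ring, show 2 * (k + 1) = (2 * k + 1) + 1 by ring,
      Nat.choose_succ_succ, show n + (k + 1) = n + k + 1 by ring, Nat.cast_add]
    ring
  rw [sum_congr rfl fun k _ => h k, sum_sub_distrib]
  simp
  ring

theorem sO_succ (n : ℕ) : sO x (n + 1) = sO x n + sE x (n + 1) := by
  rw [sO, sO_eq x n (n + 2) (by omega), sE, ← sum_add_distrib]
  refine sum_congr rfl fun k _ => ?_
  rw [Nat.choose_succ_succ, show n + 1 + k = n + k + 1 by ring, Nat.cast_add]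
  ring

theorem sE_zero : sE x 0 = 1 := by simp [sE]

theorem sO_zero : sO x 0 = 1 := by simp [sO]

variable {x} {t : R} (ht : t ^ 2 = t + 1) (hx : x = t ^ 2)

include ht hx in
theorem table : sE x 1 = - t ∧ sO x 1 = 1 - t ∧ sE x 2 = 0 ∧ sO x 2 = 1 - t ∧ sE x 3 = t ∧
    sO x 3 = 1 ∧ sE x 4 = -1 ∧ sO x 4 = 0 ∧ sE x 5 = -1 ∧ sO x 5 = -1 := by
  have h0 := sE_zero x
  have g0 := sO_zero x
  have h1 := sE_succ x 0
  have g1 := sO_succ x 0
  have h2 := sE_succ x 1
  have g2 := sO_succ x 1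
  have h3 := sE_succ x 2
  have g3 := sO_succ x 2
  have h4 := sE_succ x 3
  have g4 := sO_succ x 3
  have h5 := sE_succ x 4
  have g5 := sO_succ x 4
  norm_num at h1 g1 h2 g2 h3 g3 h4 g4 h5 g5
  have hx' : x = t + 1 := hx.trans ht
  have e1 : sE x 1 = - t := by rw [h1, h0, g0, hx']; ring
  have f1 : sO x 1 = 1 - t := by rw [g1, e1, g0]; ring
  have e2 : sE x 2 = 0 := by rw [h2, e1, f1, hx']; linear_combination ht
  have f2 : sO x 2 = 1 - t := by rw [g2, e2, f1]; ring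
  have e3 : sE x 3 = t := by rw [h3, e2, f2, hx']; linear_combination ht
  have f3 : sO x 3 = 1 := by rw [g3, e3, f2]; ring
  have e4 : sE x 4 = -1 := by rw [h4, e3, f3, hx']; ring
  have f4 : sO x 4 = 0 := by rw [g4, e4, f3]; ring
  have e5 : sE x 5 = -1 := by rw [h5, e4, f4]; ring
  have f5 : sO x 5 = -1 := by rw [g5, e5, f4]; ring
  exact ⟨e1, f1, e2, f2, e3, f3, e4, f4, e5, f5⟩

include ht hx in
theorem period (n : ℕ) : sE x (n + 5) = - sE x n ∧ sO x (n + 5) = - sO x n := by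
  induction n with
  | zero =>
    obtain ⟨-, -, -, -, -, -, -, -, e5, f5⟩ := table ht hx
    simp only [zero_add]
    rw [e5, f5, sE_zero, sO_zero]
    exact ⟨rfl, rfl⟩
  | succ n ih =>
    have h1 := sE_succ x (n + 5)
    have h2 := sO_succ x (n + 5)
    have h3 := sE_succ x n
    have h4 := sO_succ x n
    have e : sE x (n + 5 + 1) = - sE x (n + 1) := by rw [h1, ih.1, ih.2, h3]; ring
    refine ⟨?_, ?_⟩
    · rw [show n + 1 + 5 = n + 5 + 1 by ring, e]
    · rw [show n + 1 + 5 = n + 5 + 1 by ring, h2, e, ih.2, h4]; ring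

include ht hx in
theorem period' (r n : ℕ) : sE x (n + 5 * r) = (-1) ^ r * sE x n ∧
    sO x (n + 5 * r) = (-1) ^ r * sO x n := by
  induction r with
  | zero => simp
  | succ r ih =>
    rw [show n + 5 * (r + 1) = n + 5 * r + 5 by ring, (period ht hx _).1, (period ht hx _).2, ih.1,
      ih.2, pow_succ]
    constructor <;> ring

end exp

/-! ### Sequences with `G (n + 2) = G n + G (n + 1)` -/

section seq

variable {G : ℕ → ℚ} (hG : ∀ n, G (n + 2) = G n + G (n + 1))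

include hG in
theorem binet : ∃ a b : ℝ, ∀ n, (G n : ℝ) = a * Real.goldenRatio ^ n + b * Real.goldenConj ^ n := by
  have h5 : Real.goldenRatio - Real.goldenConj ≠ 0 := by
    rw [Real.goldenRatio_sub_goldenConj]
    exact Real.sqrt_ne_zero'.2 (by norm_num)
  refine ⟨(G 1 - G 0 * Real.goldenConj) / (Real.goldenRatio - Real.goldenConj),
    (G 0 * Real.goldenRatio - G 1) / (Real.goldenRatio - Real.goldenConj), fun n => ?_⟩
  induction n using Nat.strong_induction_on with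
  | _ n ih =>
    match n with
    | 0 =>
      simp only [pow_zero, mul_one]
      rw [← add_div, eq_div_iff h5]
      ring
    | 1 =>
      simp only [pow_one]
      rw [div_mul_eq_mul_div, div_mul_eq_mul_div, ← add_div, eq_div_iff h5]
      ring
    | n + 2 =>
      rw [hG, Rat.cast_add, ih n (by omega), ih (n + 1) (by omega)]
      have h1 := Real.goldenRatio_sq
      have h2 := Real.goldenConj_sq
      rw [pow_succ _ (n + 1), pow_succ _ (n + 1), pow_succ, pow_succ]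
      linear_combination (-(G 1 - G 0 * Real.goldenConj) /
        (Real.goldenRatio - Real.goldenConj) * Real.goldenRatio ^ n) * h1 +
        (-(G 0 * Real.goldenRatio - G 1) / (Real.goldenRatio - Real.goldenConj) *
          Real.goldenConj ^ n) * h2

/-- The value: `G 1` or `G 0 - G 1`. -/
def val (G : ℕ → ℚ) (p : ℕ) : ℚ := if p % 10 = 1 ∨ p % 10 = 9 then G 1 else G 0 - G 1

/-- The other value. -/
def val' (G : ℕ → ℚ) (p : ℕ) : ℚ := if p % 10 = 1 ∨ p % 10 = 9 then G 0 - G 1 else G 1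

theorem odd_val {t : ℝ} (ht : t ^ 2 = t + 1) (m : ℕ) (hm : 1 ≤ m) (h5 : (2 * m + 1) % 5 ≠ 0) :
    t * (sO (t ^ 2) m + sO (t ^ 2) (m - 1)) = (-1) ^ m *
      (if (2 * m + 1) % 10 = 1 ∨ (2 * m + 1) % 10 = 9 then t else 1 - t) := by
  obtain ⟨e1, f1, e2, f2, e3, f3, e4, f4, e5, f5⟩ := table ht rfl
  have f0 := sO_zero (t ^ 2)
  obtain ⟨r, c, hc, rfl⟩ : ∃ r c, c < 5 ∧ m = c + 1 + 5 * r :=
    ⟨(m - 1) / 5, (m - 1) % 5, Nat.mod_lt _ (by norm_num), by omega⟩
  have h10 : (2 * (c + 1 + 5 * r) + 1) % 10 = (2 * c + 3) % 10 := by omega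
  rw [h10, (period' ht rfl r (c + 1)).2, show c + 1 + 5 * r - 1 = c + 5 * r by omega,
    (period' ht rfl r c).2, pow_add, show (-1 : ℝ) ^ (5 * r) = (-1) ^ r by rw [pow_mul]; norm_num]
  interval_cases c
  · norm_num
    rw [f1, f0]
    linear_combination (-(-1 : ℝ) ^ r) * ht
  · omega
  · norm_num
    rw [f3, f2]
    linear_combination (-(-1 : ℝ) ^ r) * ht
  · norm_num
    rw [f4, f3]
    ring
  · norm_num
    rw [f5, f4]
    ring

theorem even_val {t : ℝ} (ht : t ^ 2 = t + 1) (p : ℕ) (h2 : p % 2 = 1) (h5 : p % 5 ≠ 0) :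
    sE (t ^ 2) p + sE (t ^ 2) (p - 1) = if p % 10 = 1 ∨ p % 10 = 9 then 1 - t else t := by
  obtain ⟨e1, f1, e2, f2, e3, f3, e4, f4, e5, f5⟩ := table ht rfl
  have e0 := sE_zero (t ^ 2)
  obtain ⟨r, c, hc, rfl⟩ : ∃ r c, c < 10 ∧ p = c + 1 + 5 * (2 * r) :=
    ⟨(p - 1) / 10, (p - 1) % 10, Nat.mod_lt _ (by norm_num), by omega⟩
  have h10 : (c + 1 + 5 * (2 * r)) % 10 = (c + 1) % 10 := by omega
  have e6 : sE (t ^ 2) 6 = t := by rw [show 6 = 1 + 5 by rfl, (period ht rfl 1).1, e1, neg_neg]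
  have e7 : sE (t ^ 2) 7 = 0 := by rw [show 7 = 2 + 5 by rfl, (period ht rfl 2).1, e2, neg_zero]
  have e8 : sE (t ^ 2) 8 = -t := by rw [show 8 = 3 + 5 by rfl, (period ht rfl 3).1, e3]
  have e9 : sE (t ^ 2) 9 = 1 := by rw [show 9 = 4 + 5 by rfl, (period ht rfl 4).1, e4, neg_neg]
  rw [h10, (period' ht rfl (2 * r) (c + 1)).1,
    show c + 1 + 5 * (2 * r) - 1 = c + 5 * (2 * r) by omega, (period' ht rfl (2 * r) c).1,
    show (-1 : ℝ) ^ (2 * r) = 1 by rw [pow_mul]; norm_num]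
  interval_cases c
  · norm_num
    rw [e1, e0]
    ring
  · omega
  · norm_num
    rw [e3, e2]
    ring
  · omega
  · omega
  · omega
  · norm_num
    rw [e7, e6]
    ring
  · omega
  · norm_num
    rw [e9, e8]
    ring
  · omega

include hG in
theorem odd_sum (m : ℕ) (hm : 1 ≤ m) (h5 : (2 * m + 1) % 5 ≠ 0) :
    ∑ k ∈ range (m + 1), (-1) ^ k * (((m + k + 1).choose (2 * k + 1) : ℚ) +
      ((m + k).choose (2 * k + 1) : ℚ)) * G (2 * k + 1) = (-1) ^ m * val G (2 * m + 1) := by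
  obtain ⟨a, b, hab⟩ := binet hG
  have key : ∀ t : ℝ, ∑ k ∈ range (m + 1), (-1) ^ k * (((m + k + 1).choose (2 * k + 1) : ℝ) +
      ((m + k).choose (2 * k + 1) : ℝ)) * t ^ (2 * k + 1) =
        t * (sO (t ^ 2) m + sO (t ^ 2) (m - 1)) := by
    intro t
    rw [sO, sO_eq _ (m - 1) (m + 1) (by omega), ← sum_add_distrib, mul_sum]
    refine sum_congr rfl fun k _ => ?_
    rw [show m - 1 + k + 1 = m + k by omega, ← pow_mul, pow_succ t]
    ring
  have h1 := odd_val Real.goldenRatio_sq m hm h5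
  have h2 := odd_val Real.goldenConj_sq m hm h5
  rw [← key] at h1 h2
  apply Rat.cast_injective (α := ℝ)
  push_cast
  rw [sum_congr rfl fun k _ => by rw [hab (2 * k + 1)]]
  have e : ∀ k ∈ range (m + 1), (-1 : ℝ) ^ k * (((m + k + 1).choose (2 * k + 1) : ℝ) +
      ((m + k).choose (2 * k + 1) : ℝ)) *
        (a * Real.goldenRatio ^ (2 * k + 1) + b * Real.goldenConj ^ (2 * k + 1)) =
      a * ((-1 : ℝ) ^ k * (((m + k + 1).choose (2 * k + 1) : ℝ) +
      ((m + k).choose (2 * k + 1) : ℝ)) * Real.goldenRatio ^ (2 * k + 1)) +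
      b * ((-1 : ℝ) ^ k * (((m + k + 1).choose (2 * k + 1) : ℝ) +
      ((m + k).choose (2 * k + 1) : ℝ)) * Real.goldenConj ^ (2 * k + 1)) := fun k _ => by ring
  rw [sum_congr rfl e, sum_add_distrib, ← mul_sum, ← mul_sum, h1, h2, val]
  have g0 := hab 0
  have g1 := hab 1
  simp only [pow_zero, pow_one, mul_one] at g0 g1
  split_ifs with h
  · rw [g1]; ring
  · push_cast
    rw [g0, g1]; ring

include hG in
theorem even_sum (p : ℕ) (h2 : p % 2 = 1) (h5 : p % 5 ≠ 0) :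
    ∑ k ∈ range (p + 1), (-1) ^ k * (((p + k).choose (2 * k) : ℚ) +
      ((p + k - 1).choose (2 * k) : ℚ)) * G (2 * k) = val' G p := by
  obtain ⟨a, b, hab⟩ := binet hG
  have key : ∀ t : ℝ, ∑ k ∈ range (p + 1), (-1) ^ k * (((p + k).choose (2 * k) : ℝ) +
      ((p + k - 1).choose (2 * k) : ℝ)) * t ^ (2 * k) =
        sE (t ^ 2) p + sE (t ^ 2) (p - 1) := by
    intro t
    rw [sE, sE_eq _ (p - 1) (p + 1) (by omega), ← sum_add_distrib]
    refine sum_congr rfl fun k _ => ?_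
    rw [show p - 1 + k = p + k - 1 by omega, ← pow_mul]
    ring
  have h1 := even_val Real.goldenRatio_sq p h2 h5
  have h2 := even_val Real.goldenConj_sq p h2 h5
  rw [← key] at h1 h2
  apply Rat.cast_injective (α := ℝ)
  push_cast
  rw [sum_congr rfl fun k _ => by rw [hab (2 * k)]]
  have e : ∀ k ∈ range (p + 1), (-1 : ℝ) ^ k * (((p + k).choose (2 * k) : ℝ) +
      ((p + k - 1).choose (2 * k) : ℝ)) *
        (a * Real.goldenRatio ^ (2 * k) + b * Real.goldenConj ^ (2 * k)) =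
      a * ((-1 : ℝ) ^ k * (((p + k).choose (2 * k) : ℝ) +
      ((p + k - 1).choose (2 * k) : ℝ)) * Real.goldenRatio ^ (2 * k)) +
      b * ((-1 : ℝ) ^ k * (((p + k).choose (2 * k) : ℝ) +
      ((p + k - 1).choose (2 * k) : ℝ)) * Real.goldenConj ^ (2 * k)) := fun k _ => by ring
  rw [sum_congr rfl e, sum_add_distrib, ← mul_sum, ← mul_sum, h1, h2, val']
  have g0 := hab 0
  have g1 := hab 1
  simp only [pow_zero, pow_one, mul_one] at g0 g1
  split_ifs with h
  · push_cast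
    rw [g0, g1]; ring
  · rw [g1]

end seq

/-! ### Estimates -/

section pad

variable (p : ℕ) [hp : Fact p.Prime]

/-- `x` is divisible by `p ^ n` in the ring of the rational numbers with denominator prime to `p`. -/
def Dv (n : ℕ) (x : ℚ) : Prop := padicNorm p x ≤ ((p : ℚ)⁻¹) ^ n

variable {p} {n m : ℕ} {x y : ℚ}

theorem pinv_nonneg : (0 : ℚ) ≤ (p : ℚ)⁻¹ := by positivity

theorem pinv_le : (p : ℚ)⁻¹ ≤ 1 := inv_le_one_of_one_le₀ (by exact_mod_cast hp.out.one_lt.le)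

theorem Dv.mul (hx : Dv p n x) (hy : Dv p m y) : Dv p (n + m) (x * y) := by
  rw [Dv, padicNorm.mul, pow_add]
  exact mul_le_mul hx hy (padicNorm.nonneg _) (pow_nonneg pinv_nonneg _)

theorem Dv.mono (h : m ≤ n) (hx : Dv p n x) : Dv p m x :=
  le_trans hx (pow_le_pow_of_le_one pinv_nonneg pinv_le h)

theorem Dv.add (hx : Dv p n x) (hy : Dv p n y) : Dv p n (x + y) :=
  le_trans padicNorm.nonarchimedean (max_le hx hy)

theorem Dv.sub (hx : Dv p n x) (hy : Dv p n y) : Dv p n (x - y) :=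
  le_trans padicNorm.sub (max_le hx hy)

theorem Dv.neg (hx : Dv p n x) : Dv p n (-x) := by
  rw [Dv, padicNorm.neg]; exact hx

theorem Dv.zero (n : ℕ) : Dv p n 0 := by
  rw [Dv, padicNorm.zero]; exact pow_nonneg pinv_nonneg _

theorem Dv.sum {s : Finset ℕ} {f : ℕ → ℚ} (h : ∀ k ∈ s, Dv p n (f k)) : Dv p n (∑ k ∈ s, f k) :=
  padicNorm.sum_le' h (pow_nonneg pinv_nonneg _)

theorem Dv.int (z : ℤ) : Dv p 0 (z : ℚ) := by
  rw [Dv, pow_zero]; exact padicNorm.of_int z

theorem Dv.nat (z : ℕ) : Dv p 0 (z : ℚ) := by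
  rw [Dv, pow_zero]; exact padicNorm.of_nat z

theorem Dv.pr : Dv p 1 (p : ℚ) := by
  rw [Dv, pow_one, padicNorm.padicNorm_p_of_prime]

theorem Dv.pp (n : ℕ) : Dv p n ((p : ℚ) ^ n) := by
  induction n with
  | zero => simpa using Dv.nat (p := p) 1
  | succ n ih => rw [pow_succ]; exact ih.mul Dv.pr

/-- Division by a unit. -/
theorem Dv.cancel {u : ℚ} (hu : padicNorm p u = 1) (h : Dv p n (u * x)) : Dv p n x := by
  rw [Dv, padicNorm.mul, hu, one_mul] at h
  exact h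

theorem Dv.cancel_p (h : Dv p (n + 1) ((p : ℚ) * x)) : Dv p n x := by
  rw [Dv, padicNorm.mul, padicNorm.padicNorm_p_of_prime, pow_succ, mul_comm] at h
  have h0 : (0 : ℚ) < (p : ℚ)⁻¹ := inv_pos.2 (by exact_mod_cast hp.out.pos)
  exact le_of_mul_le_mul_right h h0

theorem unit_nat {k : ℕ} (h : ¬ p ∣ k) : padicNorm p (k : ℚ) = 1 := padicNorm.nat_eq_one_iff k |>.2 h

theorem unit_of_dv {u v : ℚ} (hu : padicNorm p u = 1) (h : Dv p 1 (v - u)) : padicNorm p v = 1 := by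
  have hlt : padicNorm p (v - u) < 1 := lt_of_le_of_lt h (by
    rw [pow_one]; exact inv_lt_one_of_one_lt₀ (by exact_mod_cast hp.out.one_lt))
  have := padicNorm.add_eq_max_of_ne (p := p) (q := v - u) (r := u) (by rw [hu]; exact hlt.ne)
  rw [sub_add_cancel, hu, max_eq_right hlt.le] at this
  exact this

/-- Conversion. -/
theorem cong_of_dv {a b : ℚ} (h : Dv p 2 (a - b)) : Cong p a b := by
  have hp0 : (p : ℚ) ≠ 0 := by exact_mod_cast hp.out.ne_zero
  refine ⟨(a - b) / p ^ 2, fun hd => ?_, by field_simp⟩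
  have h0 : Dv p 0 ((a - b) / p ^ 2) := by
    apply Dv.cancel_p
    apply Dv.cancel_p
    convert h using 1
    field_simp
  set c := (a - b) / (p : ℚ) ^ 2 with hc
  have hcop : ¬ (p : ℤ) ∣ c.num := by
    intro hn
    have := c.reduced
    have h1 : p ∣ Nat.gcd c.num.natAbs c.den := Nat.dvd_gcd (Int.natCast_dvd.1 hn) hd
    rw [Nat.Coprime] at this
    rw [this] at h1
    exact hp.out.one_lt.ne' (Nat.dvd_one.1 h1)
  have h1 : padicNorm p c * padicNorm p (c.den : ℚ) = 1 := by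
    rw [← padicNorm.mul, Rat.mul_den_eq_num]
    exact (padicNorm.int_eq_one_iff _).2 hcop
  have h2 : padicNorm p (c.den : ℚ) < 1 := (padicNorm.nat_lt_one_iff _).2 hd
  have h3 : padicNorm p c ≤ 1 := by simpa [Dv] using h0
  have h4 : padicNorm p c * padicNorm p (c.den : ℚ) < 1 := by
    calc padicNorm p c * padicNorm p (c.den : ℚ) ≤ 1 * padicNorm p (c.den : ℚ) :=
          mul_le_mul_of_nonneg_right h3 (padicNorm.nonneg _)
      _ < 1 := by rw [one_mul]; exact h2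
  exact h4.ne h1

end pad

/-! ### The coefficients -/

section coef

theorem ch1 (n k : ℕ) : ((n + 1 : ℕ) : ℚ) * (n.choose k : ℚ) =
    ((n + 1).choose (k + 1) : ℚ) * ((k + 1 : ℕ) : ℚ) := by
  exact_mod_cast Nat.add_one_mul_choose_eq n k

theorem ch2 (n k : ℕ) (h : k ≤ n) : (n.choose (k + 1) : ℚ) * ((k + 1 : ℕ) : ℚ) =
    (n.choose k : ℚ) * ((n : ℚ) - k) := by
  have := Nat.choose_succ_right_eq n k
  have h2 : ((n.choose (k + 1) * (k + 1) : ℕ) : ℚ) = ((n.choose k * (n - k) : ℕ) : ℚ) := by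
    rw [this]
  rw [Nat.cast_mul, Nat.cast_mul, Nat.cast_sub h] at h2
  exact h2

/-- `C(m+k+1, 2k+1) + C(m+k, 2k+1) = (2m+1)/(2k+1) C(m+k, 2k)`. -/
theorem co1 (m k : ℕ) (h : k ≤ m) : ((2 * k + 1 : ℕ) : ℚ) * (((m + k + 1).choose (2 * k + 1) : ℚ) +
    ((m + k).choose (2 * k + 1) : ℚ)) = ((2 * m + 1 : ℕ) : ℚ) * ((m + k).choose (2 * k) : ℚ) := by
  have h1 := ch1 (m + k) (2 * k)
  have h2 := ch2 (m + k) (2 * k) (by omega)
  push_cast at h1 h2 ⊢
  linear_combination -h1 + h2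

/-- `(-1)^k C(m+k, 2k)`. -/
def cA (m k : ℕ) : ℚ := (-1) ^ k * ((m + k).choose (2 * k) : ℚ)

/-- `c_k / 16^k`. -/
def cB (k : ℕ) : ℚ := (Nat.centralBinom k : ℚ) / 16 ^ k

/-- `(-1)^(k+1) (C(p+k, 2k) + C(p+k-1, 2k)) / (2 p)`. -/
def cR (p k : ℕ) : ℚ := (-1) ^ (k + 1) * (((p + k).choose (2 * k) : ℚ) +
  ((p + k - 1).choose (2 * k) : ℚ)) / (2 * p)

/-- `p / (k^2 c_k)`. -/
def cQ (p k : ℕ) : ℚ := (p : ℚ) / ((k : ℚ) ^ 2 * (Nat.centralBinom k : ℚ))

theorem cA_succ (m k : ℕ) (h : k < m) : cA m (k + 1) * (8 * (2 * k + 1) * (k + 1)) =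
    cA m k * ((2 * k + 1) ^ 2 - (2 * m + 1) ^ 2) := by
  have h1 := ch1 (m + k) (2 * k)
  have h2 := ch2 (m + k + 1) (2 * k + 1) (by omega)
  rw [cA, cA, show m + (k + 1) = m + k + 1 by ring, show 2 * (k + 1) = 2 * k + 1 + 1 by ring]
  push_cast at h1 h2 ⊢
  rw [pow_succ]
  linear_combination (-(-1 : ℚ) ^ k * 4 * (2 * k + 1)) * h2 +
    ((-1 : ℚ) ^ k * 4 * (m - k)) * h1

theorem cB_succ (k : ℕ) : cB (k + 1) * (8 * (k + 1)) = cB k * (2 * k + 1) := by
  have h : (((k + 1) * Nat.centralBinom (k + 1) : ℕ) : ℚ) =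
      ((2 * (2 * k + 1) * Nat.centralBinom k : ℕ) : ℚ) := by
    rw [Nat.succ_mul_centralBinom_succ]
  rw [cB, cB, pow_succ]
  push_cast at h
  field_simp
  linear_combination 8 * h

theorem cQ_succ (p k : ℕ) (hk : 1 ≤ k) : cQ p (k + 1) * ((2 * k + 1) * (2 * k + 2)) =
    cQ p k * k ^ 2 := by
  have h : (((k + 1) * Nat.centralBinom (k + 1) : ℕ) : ℚ) =
      ((2 * (2 * k + 1) * Nat.centralBinom k : ℕ) : ℚ) := by
    rw [Nat.succ_mul_centralBinom_succ]
  push_cast at h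
  have h0 : (Nat.centralBinom k : ℚ) ≠ 0 := by exact_mod_cast Nat.centralBinom_ne_zero k
  have h1 : (Nat.centralBinom (k + 1) : ℚ) ≠ 0 := by exact_mod_cast Nat.centralBinom_ne_zero (k + 1)
  have h2 : (k : ℚ) ≠ 0 := by exact_mod_cast (by omega : k ≠ 0)
  have h3 : (k : ℚ) + 1 ≠ 0 := by positivity
  rw [cQ, cQ]
  push_cast
  field_simp
  linear_combination (-(p : ℚ)) * h

theorem cR_succ (p k : ℕ) (hp : 1 ≤ p) (hk : 1 ≤ k) (h : k < p) :
    cR p (k + 1) * ((2 * k + 1) * (2 * k + 2)) = cR p k * (k ^ 2 - p ^ 2) := by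
  obtain ⟨n, rfl⟩ : ∃ n, p = n + 1 := ⟨p - 1, by omega⟩
  have h1 := ch1 (n + 1 + k) (2 * k)
  have h2 := ch2 (n + 1 + k + 1) (2 * k + 1) (by omega)
  have h3 := ch2 (n + 1 + k) (2 * k) (by omega)
  have h4 := ch2 (n + 1 + k) (2 * k + 1) (by omega)
  have h5 : (((n + k).choose (2 * k) * (n + k + 1) : ℕ) : ℚ) =
      (((n + k + 1).choose (2 * k) * (n + k + 1 - 2 * k) : ℕ) : ℚ) := by
    rw [Nat.choose_mul_succ_eq]
  rw [Nat.cast_mul, Nat.cast_mul, Nat.cast_sub (by omega)] at h5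
  have hp0 : ((n : ℚ) + 1) ≠ 0 := by positivity
  rw [cR, cR, show n + 1 + (k + 1) = n + 1 + k + 1 by ring,
    show 2 * (k + 1) = 2 * k + 1 + 1 by ring, show n + 1 + k + 1 - 1 = n + 1 + k by omega,
    show n + 1 + k - 1 = n + k by omega]
  rw [show n + k + 1 = n + 1 + k by ring] at h5
  push_cast at h1 h2 h3 h4 h5 ⊢
  rw [pow_succ _ (k + 1), div_mul_eq_mul_div, div_mul_eq_mul_div]
  congr 1
  linear_combination (-(-1 : ℚ) ^ (k + 1)) * ((2 * k + 1) * h2 - (n + 1 - k) * h1 +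
    (2 * k + 1) * h4 + (n + 1 - k - 1) * h3 - (n + 1 - k) * h5)

end coef

/-! ### The coefficients modulo `p ^ 2` -/

section est

variable {p m : ℕ} [hp : Fact p.Prime]

theorem unit_int {z : ℚ} (k : ℕ) (hz : z = k) (h : ¬ p ∣ k) : padicNorm p z = 1 := by
  rw [hz]; exact unit_nat h

theorem not_dvd_of_lt {k : ℕ} (h0 : 0 < k) (h : k < p) : ¬ p ∣ k :=
  Nat.not_dvd_of_pos_of_lt h0 h

theorem not_dvd_mul {a b : ℕ} (ha : ¬ p ∣ a) (hb : ¬ p ∣ b) : ¬ p ∣ a * b := fun h =>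
  (hp.out.dvd_mul.1 h).elim ha hb

theorem not_dvd_two (h2 : p ≠ 2) : ¬ p ∣ 2 := fun h =>
  h2 ((Nat.prime_dvd_prime_iff_eq hp.out Nat.prime_two).1 h)

theorem not_dvd_eight (h2 : p ≠ 2) : ¬ p ∣ 8 := by
  have := not_dvd_two h2
  exact not_dvd_mul (a := 4) (b := 2) (not_dvd_mul (a := 2) (b := 2) this this) this

/-- The coefficients of the second pair of sums. -/
theorem estAB (hm : p = 2 * m + 1) (k : ℕ) (hk : k ≤ m) :
    Dv p 0 (cA m k) ∧ Dv p 2 (cB k - cA m k) := by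
  have h2 : p ≠ 2 := by omega
  induction k with
  | zero =>
    constructor
    · simpa [cA] using Dv.nat (p := p) 1
    · simpa [cA, cB] using Dv.zero (p := p) 2
  | succ k ih =>
    obtain ⟨i1, i2⟩ := ih (by omega)
    have hA := cA_succ m k (by omega)
    have hB := cB_succ k
    have hu : ¬ p ∣ 8 * (2 * k + 1) * (k + 1) :=
      not_dvd_mul (not_dvd_mul (not_dvd_eight h2) (not_dvd_of_lt (by omega) (by omega)))
        (not_dvd_of_lt (by omega) (by omega))
    have hu' := unit_int (p := p) (z := 8 * (2 * k + 1) * (k + 1)) _ (by push_cast; ring) hu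
    have hmp : (p : ℚ) = 2 * m + 1 := by rw [hm]; push_cast; ring
    constructor
    · apply Dv.cancel hu'
      rw [mul_comm, hA]
      have := i1.mul (Dv.int (p := p) ((2 * k + 1) ^ 2 - (2 * m + 1) ^ 2 : ℤ))
      push_cast at this
      exact this
    · apply Dv.cancel hu'
      have e : 8 * (2 * (k : ℚ) + 1) * (k + 1) * (cB (k + 1) - cA m (k + 1)) =
          (cB k - cA m k) * ((2 * (k : ℚ) + 1) ^ 2) + cA m k * (p : ℚ) ^ 2 := by
        rw [hmp]
        linear_combination (2 * (k : ℚ) + 1) * hB - hA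
      rw [e]
      refine Dv.add ?_ ?_
      · have := i2.mul (Dv.int (p := p) ((2 * k + 1) ^ 2 : ℤ))
        push_cast at this
        exact this
      · have := i1.mul (Dv.pp (p := p) 2)
        rwa [zero_add] at this

theorem cR_one (h : 1 ≤ p) : cR p 1 = p / 2 ∧ cQ p 1 = p / 2 := by
  have h0 : (p : ℚ) ≠ 0 := by exact_mod_cast (by omega : p ≠ 0)
  constructor
  · rw [cR, show p + 1 - 1 = p by omega, Nat.cast_choose_two, Nat.cast_choose_two]
    push_cast
    field_simp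
    ring
  · rw [cQ, Nat.centralBinom_eq_two_mul_choose]
    norm_num

/-- The coefficients of the first pair of sums, first half. -/
theorem estRQ1 (hm : p = 2 * m + 1) (k : ℕ) (hk1 : 1 ≤ k) (hk : k ≤ m) :
    Dv p 1 (cR p k) ∧ Dv p 3 (cQ p k - cR p k) := by
  have h2 : p ≠ 2 := by omega
  have hu2 := unit_int (p := p) (z := 2) 2 (by norm_num) (not_dvd_two h2)
  obtain ⟨r1, q1⟩ := cR_one (p := p) (by omega)
  induction k, hk1 using Nat.le_induction with
  | base =>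
    constructor
    · rw [r1]
      apply Dv.cancel hu2
      rw [mul_div_cancel₀ _ (by norm_num)]
      exact Dv.pr
    · rw [r1, q1, sub_self]
      exact Dv.zero _
  | succ k hk1 ih =>
    obtain ⟨i1, i2⟩ := ih (by omega)
    have hR := cR_succ p k (by omega) hk1 (by omega)
    have hQ := cQ_succ p k hk1
    have hu : ¬ p ∣ (2 * k + 1) * (2 * k + 2) :=
      not_dvd_mul (not_dvd_of_lt (by omega) (by omega)) (not_dvd_of_lt (by omega) (by omega))
    have hu' := unit_int (p := p) (z := (2 * k + 1) * (2 * k + 2)) _ (by push_cast; ring) hu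
    constructor
    · apply Dv.cancel hu'
      rw [mul_comm, hR]
      have := i1.mul (Dv.int (p := p) ((k : ℤ) ^ 2 - (p : ℤ) ^ 2 : ℤ))
      push_cast at this
      exact this
    · apply Dv.cancel hu'
      have e : (2 * (k : ℚ) + 1) * (2 * k + 2) * (cQ p (k + 1) - cR p (k + 1)) =
          (cQ p k - cR p k) * (k : ℚ) ^ 2 + cR p k * (p : ℚ) ^ 2 := by
        linear_combination hQ - hR
      rw [e]
      refine Dv.add ?_ ?_
      · have := i2.mul (Dv.int (p := p) ((k : ℤ) ^ 2 : ℤ))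
        push_cast at this
        exact this
      · exact i1.mul (Dv.pp (p := p) 2)

/-- The coefficients of the first pair of sums, second half. -/
theorem estRQ2 (hm : p = 2 * m + 1) (hm1 : 1 ≤ m) (k : ℕ) (hk1 : m + 1 ≤ k) (hk : k < p) :
    Dv p 0 (cR p k) ∧ Dv p 2 (cQ p k - cR p k) := by
  have h2 : p ≠ 2 := by omega
  have hu2 := unit_int (p := p) (z := 2) 2 (by norm_num) (not_dvd_two h2)
  induction k, hk1 using Nat.le_induction with
  | base =>
    obtain ⟨i1, i2⟩ := estRQ1 hm m hm1 le_rfl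
    have hR := cR_succ p m (by omega) hm1 (by omega)
    have hQ := cQ_succ p m hm1
    have hu : ¬ p ∣ 2 * (m + 1) := not_dvd_mul (not_dvd_two h2) (not_dvd_of_lt (by omega) (by omega))
    have hu' := unit_int (p := p) (z := (2 * m + 2)) _ (by push_cast; ring) hu
    have hmp : (p : ℚ) = 2 * m + 1 := by rw [hm]; push_cast; ring
    rw [← hmp] at hR hQ
    constructor
    · apply Dv.cancel_p
      apply Dv.cancel hu'
      rw [show (2 * (m : ℚ) + 2) * (p * cR p (m + 1)) = cR p m * ((m : ℚ) ^ 2 - (p : ℚ) ^ 2) by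
        rw [← hR]; ring]
      have := i1.mul (Dv.int (p := p) ((m : ℤ) ^ 2 - (p : ℤ) ^ 2 : ℤ))
      push_cast at this
      exact this
    · apply Dv.cancel_p
      apply Dv.cancel hu'
      have e : (2 * (m : ℚ) + 2) * (p * (cQ p (m + 1) - cR p (m + 1))) =
          (cQ p m - cR p m) * (m : ℚ) ^ 2 + cR p m * (p : ℚ) ^ 2 := by
        linear_combination hQ - hR
      rw [e]
      refine Dv.add ?_ ?_
      · have := i2.mul (Dv.int (p := p) ((m : ℤ) ^ 2 : ℤ))
        push_cast at this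
        exact this
      · exact i1.mul (Dv.pp (p := p) 2)
  | succ k hk1 ih =>
    obtain ⟨i1, i2⟩ := ih (by omega)
    have hR := cR_succ p k (by omega) (by omega) (by omega)
    have hQ := cQ_succ p k (by omega)
    have hu : ¬ p ∣ (2 * k + 1) * (2 * (k + 1)) := by
      refine not_dvd_mul (fun h => ?_) (not_dvd_mul (not_dvd_two h2)
        (not_dvd_of_lt (by omega) (by omega)))
      obtain ⟨c, hc⟩ := h
      have h1 : c < 2 := by
        by_contra h3
        have : p * 2 ≤ p * c := Nat.mul_le_mul_left _ (by omega)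
        omega
      have h3 : 1 < c := by
        by_contra h3
        have : p * c ≤ p * 1 := Nat.mul_le_mul_left _ (by omega)
        omega
      omega
    have hu' := unit_int (p := p) (z := (2 * k + 1) * (2 * k + 2)) _ (by push_cast; ring) hu
    constructor
    · apply Dv.cancel hu'
      rw [mul_comm, hR]
      have := i1.mul (Dv.int (p := p) ((k : ℤ) ^ 2 - (p : ℤ) ^ 2 : ℤ))
      push_cast at this
      exact this
    · apply Dv.cancel hu'
      have e : (2 * (k : ℚ) + 1) * (2 * k + 2) * (cQ p (k + 1) - cR p (k + 1)) =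
          (cQ p k - cR p k) * (k : ℚ) ^ 2 + cR p k * (p : ℚ) ^ 2 := by
        linear_combination hQ - hR
      rw [e]
      refine Dv.add ?_ ?_
      · have := i2.mul (Dv.int (p := p) ((k : ℤ) ^ 2 : ℤ))
        push_cast at this
        exact this
      · have := i1.mul (Dv.pp (p := p) 2)
        rwa [zero_add] at this

end est

/-! ### The sums -/

section sums

variable {p m : ℕ} [hp : Fact p.Prime] {g : ℕ → ℕ} (hg : ∀ n, g (n + 2) = g n + g (n + 1))

include hg in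
theorem sumB (hm : p = 2 * m + 1) (hm1 : 1 ≤ m) (h5 : p % 5 ≠ 0) :
    Dv p 1 (val (fun n => (g n : ℚ)) p - g p) ∧
    Dv p 2 (∑ k ∈ range m, cB k * g (2 * k + 1) / (2 * k + 1) -
      (-1) ^ m * (val (fun n => (g n : ℚ)) p - g p) / p) := by
  have hp0 : (p : ℚ) ≠ 0 := by exact_mod_cast hp.out.ne_zero
  have h1 := odd_sum (G := fun n => (g n : ℚ)) (fun n => by rw [hg]; push_cast; ring) m hm1
    (by rw [← hm]; exact h5)
  rw [← hm, sum_range_succ] at h1
  have hsq : ((-1 : ℚ) ^ m) * (-1) ^ m = 1 := by rw [← mul_pow]; norm_num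
  have h2 : (p : ℚ) * ∑ k ∈ range m, cA m k * g (2 * k + 1) / (2 * k + 1) =
      (-1) ^ m * (val (fun n => (g n : ℚ)) p - g p) := by
    have e : (p : ℚ) * ∑ k ∈ range m, cA m k * g (2 * k + 1) / (2 * k + 1) =
        ∑ k ∈ range m, (-1 : ℚ) ^ k * (((m + k + 1).choose (2 * k + 1) : ℚ) +
          ((m + k).choose (2 * k + 1) : ℚ)) * g (2 * k + 1) := by
      rw [mul_sum]
      refine sum_congr rfl fun k hk => ?_
      have h3 := co1 m k (mem_range.1 hk).le
      rw [← hm] at h3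
      have h4 : ((2 * k + 1 : ℕ) : ℚ) ≠ 0 := by positivity
      have h6 : (2 * (k : ℚ) + 1) ≠ 0 := by positivity
      rw [cA]
      field_simp
      push_cast at h3
      linear_combination (-(g (2 * k + 1) : ℚ)) * h3
    rw [e]
    rw [Nat.choose_eq_zero_of_lt (by omega : m + m < 2 * m + 1),
      show m + m + 1 = 2 * m + 1 by ring, Nat.choose_self, ← hm] at h1
    push_cast at h1
    linear_combination h1
  have hG : Dv p 0 (∑ k ∈ range m, cA m k * g (2 * k + 1) / (2 * k + 1)) := by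
    refine Dv.sum fun k hk => ?_
    have hk' := mem_range.1 hk
    have hu := unit_int (p := p) (z := 2 * k + 1) (2 * k + 1) (by push_cast; ring)
      (not_dvd_of_lt (by omega) (by omega))
    apply Dv.cancel hu
    have h6 : (2 * (k : ℚ) + 1) ≠ 0 := by positivity
    rw [mul_div_cancel₀ _ h6]
    exact (estAB hm k hk'.le).1.mul (Dv.nat _)
  constructor
  · have h3 : val (fun n => (g n : ℚ)) p - g p =
        (-1) ^ m * ((p : ℚ) * ∑ k ∈ range m, cA m k * g (2 * k + 1) / (2 * k + 1)) := by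
      rw [h2, ← mul_assoc, hsq, one_mul]
    rw [h3]
    have h4 : Dv p 0 ((-1 : ℚ) ^ m) := by
      have := Dv.int (p := p) ((-1) ^ m)
      push_cast at this
      exact this
    have := h4.mul ((Dv.pr (p := p)).mul hG)
    simpa using this
  · rw [← h2, mul_div_cancel_left₀ _ hp0, ← sum_sub_distrib]
    refine Dv.sum fun k hk => ?_
    have hk' := mem_range.1 hk
    have hu := unit_int (p := p) (z := 2 * k + 1) (2 * k + 1) (by push_cast; ring)
      (not_dvd_of_lt (by omega) (by omega))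
    apply Dv.cancel hu
    have h6 : (2 * (k : ℚ) + 1) ≠ 0 := by positivity
    rw [mul_sub, mul_div_cancel₀ _ h6, mul_div_cancel₀ _ h6, ← sub_mul]
    have := (estAB hm k hk'.le).2.mul (Dv.nat (p := p) (g (2 * k + 1)))
    rwa [add_zero] at this

include hg in
theorem sumQ (hm : p = 2 * m + 1) (hm1 : 1 ≤ m) (h5 : p % 5 ≠ 0) :
    Dv p 2 ((p : ℚ) * ∑ k ∈ Ico 1 p, (g (2 * k) : ℚ) / (k ^ 2 * (Nat.centralBinom k : ℚ)) -
      (2 * g 0 - g (2 * p) - val' (fun n => (g n : ℚ)) p) / (2 * p)) := by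
  have hp0 : (p : ℚ) ≠ 0 := by exact_mod_cast hp.out.ne_zero
  have h1 := even_sum (G := fun n => (g n : ℚ)) (fun n => by rw [hg]; push_cast; ring) p
    (by omega) h5
  rw [sum_range_succ, range_eq_Ico, sum_eq_sum_Ico_succ_bot (by omega : 0 < p)] at h1
  have hodd : (-1 : ℚ) ^ p = -1 := Odd.neg_one_pow ⟨m, hm⟩
  rw [Nat.choose_eq_zero_of_lt (by omega : p + p - 1 < 2 * p), ← two_mul, Nat.choose_self,
    hodd] at h1
  have h2 : (2 * g 0 - g (2 * p) - val' (fun n => (g n : ℚ)) p) / (2 * p) =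
      ∑ k ∈ Ico 1 p, cR p k * g (2 * k) := by
    rw [div_eq_iff (by positivity), sum_mul, ← h1]
    have e : ∀ k ∈ Ico 1 p, cR p k * g (2 * k) * (2 * p) =
        -((-1) ^ k * (((p + k).choose (2 * k) : ℚ) +
      ((p + k - 1).choose (2 * k) : ℚ)) * g (2 * k)) := by
      intro k _
      rw [cR]
      field_simp
      ring
    rw [sum_congr rfl e, sum_neg_distrib]
    simp
    ring
  rw [h2, mul_sum, ← sum_sub_distrib]
  refine Dv.sum fun k hk => ?_
  rw [mem_Ico] at hk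
  have e : (p : ℚ) * ((g (2 * k) : ℚ) / (k ^ 2 * (Nat.centralBinom k : ℚ))) -
      cR p k * g (2 * k) = (cQ p k - cR p k) * g (2 * k) := by
    rw [cQ]; ring
  rw [e]
  have h3 : Dv p 2 (cQ p k - cR p k) := by
    by_cases h : k ≤ m
    · exact (estRQ1 hm k hk.1 h).2.mono (by norm_num)
    · exact (estRQ2 hm hm1 k (by omega) hk.2).2
  have := h3.mul (Dv.nat (p := p) (g (2 * k)))
  rwa [add_zero] at this

end sums

/-! ### Fibonacci and Lucas numbers -/

theorem luc_eq (n : ℕ) : luc n + Nat.fib n = 2 * Nat.fib (n + 1) := by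
  induction n using Nat.strong_induction_on with
  | _ n ih =>
    match n with
    | 0 => rfl
    | 1 => rfl
    | n + 2 =>
      have h1 := ih n (by omega)
      have h2 := ih (n + 1) (by omega)
      have h3 : luc (n + 2) = luc n + luc (n + 1) := rfl
      have h4 : Nat.fib (n + 2) = Nat.fib n + Nat.fib (n + 1) := Nat.fib_add_two
      have h5 : Nat.fib (n + 2 + 1) = Nat.fib (n + 1) + Nat.fib (n + 2) := Nat.fib_add_two
      have h6 : Nat.fib (n + 1 + 1) = Nat.fib n + Nat.fib (n + 1) := Nat.fib_add_two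
      omega

theorem cassini (n : ℕ) : (Nat.fib (n + 1) : ℚ) ^ 2 - Nat.fib n * Nat.fib (n + 1) -
    (Nat.fib n : ℚ) ^ 2 = (-1) ^ n := by
  induction n with
  | zero => simp
  | succ n ih =>
    rw [show n + 1 + 1 = n + 2 by ring, Nat.fib_add_two, pow_succ]
    push_cast
    linear_combination -ih

section fin

variable {p m : ℕ} [hp : Fact p.Prime]

/-- The facts about `y = ε F_p`, `pq = F_{p-ε}`. -/
theorem quad {y e : ℚ} (hm : p = 2 * m + 1) (hq : y ^ 2 - e * y - e ^ 2 - 1 = 0)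
    (hy : Dv p 1 (y - 1)) (he : Dv p 1 e) : Dv p 4 (1 + e / 2 + 5 * e ^ 2 / 8 - y) ∧
      Dv p 2 (1 + e / 2 - y) := by
  have h2 : p ≠ 2 := by omega
  have hu2 := unit_int (p := p) (z := 2) 2 (by norm_num) (not_dvd_two h2)
  have hu8 := unit_int (p := p) (z := 8) 8 (by norm_num) (not_dvd_eight h2)
  have hh : Dv p 1 (e / 2) := by
    apply Dv.cancel hu2
    rwa [mul_div_cancel₀ _ (by norm_num)]
  have h8 : Dv p 2 (5 * e ^ 2 / 8) := by
    apply Dv.cancel hu8
    rw [mul_div_cancel₀ _ (by norm_num)]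
    have := (Dv.nat (p := p) 5).mul (he.mul he)
    push_cast at this
    rw [← pow_two] at this
    exact this
  have hu : padicNorm p (y + (1 + e / 2 + 5 * e ^ 2 / 8) - e) = 1 := by
    refine unit_of_dv hu2 ?_
    have : y + (1 + e / 2 + 5 * e ^ 2 / 8) - e - 2 = (y - 1) + e / 2 + 5 * e ^ 2 / 8 - e := by ring
    rw [this]
    exact ((hy.add hh).add (h8.mono (by norm_num))).sub he
  have h4 : Dv p 4 (1 + e / 2 + 5 * e ^ 2 / 8 - y) := by
    apply Dv.cancel hu
    have e1 : (y + (1 + e / 2 + 5 * e ^ 2 / 8) - e) * (1 + e / 2 + 5 * e ^ 2 / 8 - y) =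
        (5 * e ^ 2 / 8) * (5 * e ^ 2 / 8) - (y ^ 2 - e * y - e ^ 2 - 1) := by ring
    rw [e1, hq, sub_zero]
    exact h8.mul h8
  refine ⟨h4, ?_⟩
  have e2 : 1 + e / 2 - y = (1 + e / 2 + 5 * e ^ 2 / 8 - y) - 5 * e ^ 2 / 8 := by ring
  rw [e2]
  exact (h4.mono (by norm_num)).sub h8

/-- The sign. -/
theorem leg (p : ℕ) (h2 : p % 2 = 1) (h5 : p % 5 ≠ 0) :
    (p % 10 = 1 ∨ p % 10 = 9) ∧ jacobiSym p 5 = 1 ∨
    ¬ (p % 10 = 1 ∨ p % 10 = 9) ∧ jacobiSym p 5 = -1 := by
  have h : jacobiSym (p : ℤ) 5 = jacobiSym ((p % 5 : ℕ) : ℤ) 5 := by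
    rw [jacobiSym.mod_left]
    push_cast
    rfl
  rw [h]
  have h10 : p % 10 = 1 ∨ p % 10 = 3 ∨ p % 10 = 7 ∨ p % 10 = 9 := by omega
  rcases h10 with h | h | h | h
  · left
    have h6 : p % 5 = 1 := by omega
    rw [h6, h]
    exact ⟨by simp, by norm_num⟩
  · right
    have h6 : p % 5 = 3 := by omega
    rw [h6, h]
    exact ⟨by simp, by norm_num⟩
  · right
    have h6 : p % 5 = 2 := by omega
    rw [h6, h]
    exact ⟨by simp, by norm_num⟩
  · left
    have h6 : p % 5 = 4 := by omega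
    rw [h6, h]
    exact ⟨by simp, by norm_num⟩

theorem main (hm : p = 2 * m + 1) (hm1 : 1 ≤ m) (h5 : p % 5 ≠ 0) (ε : ℚ) (n : ℕ)
    (hε : ((p % 10 = 1 ∨ p % 10 = 9) ∧ ε = 1 ∧ n = p - 1) ∨
      (¬ (p % 10 = 1 ∨ p % 10 = 9) ∧ ε = -1 ∧ n = p + 1)) (q : ℚ) (hq : q = Nat.fib n / p) :
    Dv p 2 ((p : ℚ) * ∑ k ∈ Ico 1 p, (Nat.fib (2 * k) : ℚ) / (k ^ 2 * (Nat.centralBinom k : ℚ)) -
      -ε * (3 * q / 2 + 5 * p * q ^ 2 / 4)) ∧
    Dv p 2 ((p : ℚ) * ∑ k ∈ Ico 1 p, (luc (2 * k) : ℚ) / (k ^ 2 * (Nat.centralBinom k : ℚ)) -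
      (-(5 * q / 2) - 15 * p * q ^ 2 / 4)) ∧
    Dv p 2 (∑ k ∈ range m, cB k * Nat.fib (2 * k + 1) / (2 * k + 1) -
      (-1) ^ (m + 1) * ε * (q / 2 + 5 * p * q ^ 2 / 8)) ∧
    Dv p 2 (∑ k ∈ range m, cB k * luc (2 * k + 1) / (2 * k + 1) -
      (-1) ^ (m + 1) * (5 * q / 2 + 5 * p * q ^ 2 / 8)) := by
  have h2 : p ≠ 2 := by omega
  have hp0 : (p : ℚ) ≠ 0 := by exact_mod_cast hp.out.ne_zero
  have hu2 := unit_int (p := p) (z := 2) 2 (by norm_num) (not_dvd_two h2)
  have hodd : (-1 : ℚ) ^ p = -1 := Odd.neg_one_pow ⟨m, hm⟩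
  obtain ⟨a1, a2⟩ := sumB (g := Nat.fib) (fun n => Nat.fib_add_two) hm hm1 h5
  obtain ⟨b1, b2⟩ := sumB (g := luc) (fun n => rfl) hm hm1 h5
  have a3 := sumQ (g := Nat.fib) (fun n => Nat.fib_add_two) hm hm1 h5
  have b3 := sumQ (g := luc) (fun n => rfl) hm hm1 h5
  -- the values
  have hε2 : ε * ε = 1 := by rcases hε with ⟨-, rfl, -⟩ | ⟨-, rfl, -⟩ <;> norm_num
  have v1 : val (fun n => (Nat.fib n : ℚ)) p = ε := by
    rcases hε with ⟨h, rfl, -⟩ | ⟨h, rfl, -⟩
    · rw [val, if_pos h]; simp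
    · rw [val, if_neg h]; simp
  have v2 : val (fun n => (luc n : ℚ)) p = 1 := by
    rcases hε with ⟨h, rfl, -⟩ | ⟨h, rfl, -⟩
    · rw [val, if_pos h]; simp [luc]
    · rw [val, if_neg h]; norm_num [luc]
  have v3 : val' (fun n => (Nat.fib n : ℚ)) p = -ε := by
    rcases hε with ⟨h, rfl, -⟩ | ⟨h, rfl, -⟩
    · rw [val', if_pos h]; simp
    · rw [val', if_neg h]; simp
  have v4 : val' (fun n => (luc n : ℚ)) p = 1 := by
    rcases hε with ⟨h, rfl, -⟩ | ⟨h, rfl, -⟩
    · rw [val', if_pos h]; norm_num [luc]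
    · rw [val', if_neg h]; simp [luc]
  rw [v1] at a1 a2
  rw [v2] at b1 b2
  rw [v3] at a3
  rw [v4] at b3
  -- Fibonacci and Lucas numbers
  set Y : ℚ := (Nat.fib p : ℚ) with hY
  set Z : ℚ := (Nat.fib (p + 1) : ℚ) with hZ
  have hX : (luc p : ℚ) = 2 * Z - Y := by
    have := luc_eq p
    have h : ((luc p + Nat.fib p : ℕ) : ℚ) = ((2 * Nat.fib (p + 1) : ℕ) : ℚ) := by rw [this]
    push_cast at h
    rw [hZ, hY]
    linear_combination h
  have hC : Z ^ 2 - Y * Z - Y ^ 2 = -1 := by rw [← hodd]; exact cassini p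
  have hpq : (p : ℚ) * q = Nat.fib n := by rw [hq]; field_simp
  set e : ℚ := p * q with he
  have he1 : 2 * Z - Y = ε * Y + 2 * e ∧ (ε * Y) ^ 2 - e * (ε * Y) - e ^ 2 - 1 = 0 := by
    rcases hε with ⟨-, rfl, hn⟩ | ⟨-, rfl, hn⟩
    · have h7 : (Nat.fib (p + 1) : ℚ) = Nat.fib n + Nat.fib p := by
        rw [show p + 1 = n + 2 by omega, Nat.fib_add_two, show n + 1 = p by omega]
        push_cast
        ring
      rw [hpq]
      have h8 : (Nat.fib n : ℚ) = Z - Y := by rw [hZ, h7, hY]; ring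
      rw [h8]
      constructor
      · ring
      · linear_combination -hC
    · rw [hpq, hn, ← hZ]
      constructor
      · ring
      · linear_combination -hC
  obtain ⟨hXe, hquad⟩ := he1
  have hdε : Dv p 0 ε := by
    rcases hε with ⟨-, rfl, -⟩ | ⟨-, rfl, -⟩
    · simpa using Dv.int (p := p) 1
    · simpa using Dv.int (p := p) (-1)
  have hy : Dv p 1 (ε * Y - 1) := by
    have h7 := (hdε.mul a1).neg
    rw [show -(ε * (ε - Y)) = ε * Y - 1 by linear_combination -hε2] at h7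
    rwa [zero_add] at h7
  have hed : Dv p 1 e := by
    apply Dv.cancel hu2
    have h7 : 2 * e = -(1 - (luc p : ℚ)) - (ε * Y - 1) := by rw [hX]; linear_combination -hXe
    rw [h7]
    exact b1.neg.sub hy
  have hqd : Dv p 0 q := Dv.cancel_p hed
  obtain ⟨k4, k2⟩ := quad hm hquad hy hed
  have hF2 : (Nat.fib (2 * p) : ℚ) = Y * (2 * Z - Y) := by
    rw [Nat.fib_two_mul, Nat.cast_mul, Nat.cast_sub]
    · push_cast
      rw [hY, hZ]
    · have := Nat.fib_le_fib_succ (n := p)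
      omega
  have hL2 : (luc (2 * p) : ℚ) = (2 * Z - Y) ^ 2 + 2 := by
    have := luc_eq (2 * p)
    have h : ((luc (2 * p) + Nat.fib (2 * p) : ℕ) : ℚ) = ((2 * Nat.fib (2 * p + 1) : ℕ) : ℚ) := by
      rw [this]
    rw [Nat.fib_two_mul_add_one] at h
    push_cast at h
    rw [hF2, ← hY, ← hZ] at h
    linear_combination h - 2 * hC
  have hsg : Dv p 0 ((-1 : ℚ) ^ m) := by
    have := Dv.int (p := p) ((-1) ^ m)
    push_cast at this
    exact this
  refine ⟨?_, ?_, ?_, ?_⟩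
  · have h1 : Dv p 2 ((2 * (Nat.fib 0 : ℚ) - Nat.fib (2 * p) - -ε) / (2 * p) -
        -ε * (3 * q / 2 + 5 * p * q ^ 2 / 4)) := by
      apply Dv.cancel_p
      apply Dv.cancel hu2
      have e1 : 2 * ((p : ℚ) * ((2 * (Nat.fib 0 : ℚ) - Nat.fib (2 * p) - -ε) / (2 * p) -
          -ε * (3 * q / 2 + 5 * p * q ^ 2 / 4))) =
          (3 : ℕ) * (ε * (e * (1 + e / 2 - ε * Y))) := by
        rw [hF2, hXe, Nat.fib_zero, he]
        rw [he] at hquad
        field_simp
        push_cast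
        linear_combination (-8 * ε) * hquad + (16 * Y * (p * q) + 8 * ε * Y ^ 2) * hε2
      rw [e1]
      have := (Dv.nat (p := p) 3).mul (hdε.mul (hed.mul k2))
      simpa using this
    have := a3.add h1
    convert this using 1
    ring
  · have h1 : Dv p 2 ((2 * (luc 0 : ℚ) - luc (2 * p) - 1) / (2 * p) -
        (-(5 * q / 2) - 15 * p * q ^ 2 / 4)) := by
      apply Dv.cancel_p
      apply Dv.cancel hu2
      have e1 : 2 * ((p : ℚ) * ((2 * (luc 0 : ℚ) - luc (2 * p) - 1) / (2 * p) -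
          (-(5 * q / 2) - 15 * p * q ^ 2 / 4))) =
          (5 : ℕ) * (e * (1 + e / 2 - ε * Y)) := by
        have hl0 : (luc 0 : ℚ) = 2 := by norm_num [luc]
        rw [hL2, hXe, hl0, he]
        rw [he] at hquad
        field_simp
        push_cast
        linear_combination (-8) * hquad
      rw [e1]
      have := (Dv.nat (p := p) 5).mul (hed.mul k2)
      simpa using this
    have := b3.add h1
    convert this using 1
    ring
  · have h1 : Dv p 2 ((-1 : ℚ) ^ m * (ε - Y) / p -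
        (-1) ^ (m + 1) * ε * (q / 2 + 5 * p * q ^ 2 / 8)) := by
      apply Dv.cancel_p
      have e1 : (p : ℚ) * ((-1 : ℚ) ^ m * (ε - Y) / p -
        (-1) ^ (m + 1) * ε * (q / 2 + 5 * p * q ^ 2 / 8)) =
          (-1 : ℚ) ^ m * (ε * (1 + e / 2 + 5 * e ^ 2 / 8 - ε * Y)) := by
        rw [he, pow_succ (-1 : ℚ) m]
        field_simp
        linear_combination (16 * Y) * hε2
      rw [e1]
      have := hsg.mul (hdε.mul (k4.mono (by norm_num : 3 ≤ 4)))
      simpa using this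
    have := a2.add h1
    convert this using 1
    ring
  · have h1 : Dv p 2 ((-1 : ℚ) ^ m * (1 - luc p) / p -
        (-1) ^ (m + 1) * (5 * q / 2 + 5 * p * q ^ 2 / 8)) := by
      apply Dv.cancel_p
      have e1 : (p : ℚ) * ((-1 : ℚ) ^ m * (1 - luc p) / p -
        (-1) ^ (m + 1) * (5 * q / 2 + 5 * p * q ^ 2 / 8)) =
          (-1 : ℚ) ^ m * (1 + e / 2 + 5 * e ^ 2 / 8 - ε * Y) := by
        rw [hX, hXe, he, pow_succ (-1 : ℚ) m]
        field_simp
        ring
      rw [e1]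
      have := hsg.mul (k4.mono (by norm_num : 3 ≤ 4))
      simpa using this
    have := b2.add h1
    convert this using 1
    ring

end fin

/-- For every prime `p ≠ 2, 5`, `ε = (p / 5)`, `q = F_{p - ε} / p`, the four congruences hold. -/
theorem result (p : ℕ) (hp : p.Prime) (h2 : p ≠ 2) (h5 : p ≠ 5) (ε : ℤ) (hε : ε = jacobiSym p 5)
    (q : ℚ) (hq : q = (Nat.fib ((p : ℤ) - ε).toNat : ℚ) / p) :
    Cong p ((p : ℚ) * ∑ k ∈ Finset.Ico 1 p, (Nat.fib (2 * k) : ℚ) /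
        ((k : ℚ) ^ 2 * (Nat.centralBinom k : ℚ)))
      (-(ε : ℚ) * (3 * q / 2 + 5 * p * q ^ 2 / 4)) ∧
    Cong p ((p : ℚ) * ∑ k ∈ Finset.Ico 1 p, (luc (2 * k) : ℚ) /
        ((k : ℚ) ^ 2 * (Nat.centralBinom k : ℚ)))
      (-(5 * q / 2) - 15 * p * q ^ 2 / 4) ∧
    Cong p (∑ k ∈ Finset.range ((p - 1) / 2), (Nat.centralBinom k : ℚ) * (Nat.fib (2 * k + 1) : ℚ) /
        ((2 * k + 1) * 16 ^ k))
      ((-1) ^ ((p + 1) / 2) * ε * (q / 2 + 5 * p * q ^ 2 / 8)) ∧
    Cong p (∑ k ∈ Finset.range ((p - 1) / 2), (Nat.centralBinom k : ℚ) * (luc (2 * k + 1) : ℚ) /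
        ((2 * k + 1) * 16 ^ k))
      ((-1) ^ ((p + 1) / 2) * (5 * q / 2 + 5 * p * q ^ 2 / 8)) := by
  haveI : Fact p.Prime := ⟨hp⟩
  obtain ⟨m, hm⟩ := hp.odd_of_ne_two h2
  have hp2 := hp.two_le
  have h5' : p % 5 ≠ 0 := fun h => h5 (((Nat.prime_dvd_prime_iff_eq (by norm_num) hp).1
    (Nat.dvd_of_mod_eq_zero h)).symm)
  have key : ((p % 10 = 1 ∨ p % 10 = 9) ∧ (ε : ℚ) = 1 ∧ ((p : ℤ) - ε).toNat = p - 1) ∨
      (¬ (p % 10 = 1 ∨ p % 10 = 9) ∧ (ε : ℚ) = -1 ∧ ((p : ℤ) - ε).toNat = p + 1) := by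
    rcases leg p (by omega) h5' with ⟨h, h'⟩ | ⟨h, h'⟩
    · left
      have he : ε = 1 := by rw [hε]; exact h'
      subst he
      exact ⟨h, by norm_num, by omega⟩
    · right
      have he : ε = -1 := by rw [hε]; exact h'
      subst he
      exact ⟨h, by norm_num, by omega⟩
  obtain ⟨c1, c2, c3, c4⟩ := main hm (by omega) h5' (ε : ℚ) _ key q hq
  have e1 : (p - 1) / 2 = m := by omega
  have e2 : (p + 1) / 2 = m + 1 := by omega
  have e3 : ∀ x : ℕ → ℕ, ∑ k ∈ Finset.range m, (Nat.centralBinom k : ℚ) * (x k : ℚ) /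
      ((2 * k + 1) * 16 ^ k) = ∑ k ∈ Finset.range m, cB k * x k / (2 * k + 1) := by
    intro x
    refine Finset.sum_congr rfl fun k _ => ?_
    rw [cB]
    field_simp
  rw [e1, e2, e3, e3]
  exact ⟨cong_of_dv c1, cong_of_dv c2, cong_of_dv c3, cong_of_dv c4⟩

end Pool.Agent.Results.MP_0a65fc_nt.FourCongruences
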